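import Mathlib

/-!
# The arithmetic conditions hold for `ω ≤ 27` (MP_fd41b2_co)
-/

set_option autoImplicit false

namespace Pool.NF7

/-- Binomial coefficients by factorials. -/
def chf (n k : ℕ) : ℕ := if k ≤ n then n.factorial / (k.factorial * (n - k).factorial) else 0

theorem chf_eq (n k : ℕ) : chf n k = n.choose k := by
  unfold chf
  split_ifs with h
  · exact (Nat.choose_eq_factorial_div_factorial h).symm
  · exact (Nat.choose_eq_zero_of_lt (not_le.1 h)).symm

/-- The test. -/
def tst (t ω r : ℕ) : Bool :=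
  let c := chf (ω - 2) (t - 2)
  let d := chf (r - 1) (t - 2)
  (!(decide (2 * r < (t - 2) * (ω - 1 - r))) || decide (t * d < c)) &&
  (!(decide ((t - 2) * (ω - 1 - r) < 2 * r)) ||
    decide (2 * r * t * d + (t - 1) * (t - 2) * (ω - 1 - r) * c < 2 * r * t * c))

theorem tst_all : ∀ ω < 28, ∀ t < ω, ∀ r < ω - 2, (3 ≤ t → 1 ≤ r → tst t ω r = true) := by
  decide +kernel

/-- For `ω ≤ 27` the second conditions hold. -/
theorem ari (t ω r : ℕ) (ht : 3 ≤ t) (htω : t < ω) (hω : ω ≤ 27) (hr : 1 ≤ r) (hrω : r + 3 ≤ ω) :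
    (2 * r < (t - 2) * (ω - 1 - r) → t * (r - 1).choose (t - 2) < (ω - 2).choose (t - 2)) ∧
    ((t - 2) * (ω - 1 - r) < 2 * r →
      2 * r * t * (r - 1).choose (t - 2) +
        (t - 1) * (t - 2) * (ω - 1 - r) * (ω - 2).choose (t - 2) <
          2 * r * t * (ω - 2).choose (t - 2)) := by
  have h := tst_all ω (by omega) t htω r (by omega) ht hr
  unfold tst at h
  simp only [chf_eq, Bool.and_eq_true, Bool.or_eq_true, Bool.not_eq_true', decide_eq_true_eq,
    decide_eq_false_iff_not] at h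
  refine ⟨fun h1 => ?_, fun h1 => ?_⟩
  · rcases h.1 with h2 | h2
    · exact absurd h1 h2
    · exact h2
  · rcases h.2 with h2 | h2
    · exact absurd h1 h2
    · exact h2

end Pool.NF7
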